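import Mathlib
import Pool.Agent.V11324.Peninsula

/-!
# MP_e2d9cc_pr : a graphon satisfying none of (i)-(iv) whose random graphs are a.a.s. not
Hamiltonian
-/

open MeasureTheory ProbabilityTheory Set Filter Topology
open scoped ENNReal unitInterval

namespace Pool.Agent.Results.MP_e2d9cc_pr.ExactPeninsulas

open Pool.Agent.V11324

/-- Combinatorial part. -/
lemma not_ham {n : ℕ} (hn : n ≠ 1) (x : Fin n → Om) (u : Sym2 (Fin n) → I)
    (h : (pen.sample n x u).IsHamiltonian) (j : ℕ) :
    cT (Finset.univ.filter fun i => (x i).1.1 = j) (fun i => (x i).1.2) ≤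
      cF (Finset.univ.filter fun i => (x i).1.1 = j) (fun i => (x i).1.2) := by
  unfold cT cF
  refine ham_card h hn _ _ ?_
  intro a ha b hab
  simp only [Finset.mem_filter, Finset.mem_univ, true_and] at ha ⊢
  obtain ⟨-, hlt⟩ := hab
  have hrel : rel (x a).1 (x b).1 := by
    by_contra hcon
    rw [W_zero hcon] at hlt
    exact absurd (u s(a, b)).2.1 (not_le.2 hlt)
  rcases hrel with ⟨h1, -⟩ | ⟨h1, h2⟩
  · rw [ha.2] at h1
    exact absurd h1 (by simp)
  · refine ⟨by rw [← h1]; exact ha.1, ?_⟩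
    rw [ha.2] at h2
    revert h2
    cases (x b).1.2 <;> simp

/-- The map forgetting the position. -/
lemma mp_fst (n : ℕ) : MeasurePreserving
    (fun (x : Fin n → Om) i => (x i).1) (Measure.pi fun _ : Fin n => om)
    (Measure.pi fun _ : Fin n => geo.prod (bern (1 / 2))) :=
  measurePreserving_pi _ _ (f := fun _ => Prod.fst) fun _ => measurePreserving_fst

lemma mp_split (n : ℕ) : MeasurePreserving
    (MeasurableEquiv.arrowProdEquivProdArrow ℕ Bool (Fin n))
    (Measure.pi fun _ : Fin n => geo.prod (bern (1 / 2)))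
    ((Measure.pi fun _ : Fin n => geo).prod (pim (Fin n) (1 / 2))) :=
  measurePreserving_arrowProdEquivProdArrow ℕ Bool (Fin n) (fun _ => geo) fun _ => bern (1 / 2)

/-- The good event. -/
def good (n J : ℕ) : Set ((Fin n → ℕ) × (Fin n → Bool)) :=
  {z | ∀ j < J, cT (Finset.univ.filter fun i => z.1 i = j) z.2 ≤
      cF (Finset.univ.filter fun i => z.1 i = j) z.2}

lemma geo_compl (j : ℕ) : geo {j}ᶜ = ENNReal.ofReal (1 - (1 / 2) ^ (j + 1)) := by
  rw [measure_compl (measurableSet_singleton j) (measure_ne_top _ _), measure_univ, geo_singleton,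
    ENNReal.ofReal_sub _ (by positivity), ENNReal.ofReal_one, ENNReal.ofReal_pow (by norm_num)]
  congr 2
  rw [one_div, ENNReal.ofReal_inv_of_pos (by norm_num)]
  simp

lemma miss (n j : ℕ) : (Measure.pi fun _ : Fin n => geo) {l | ∀ i, l i ≠ j} =
    ENNReal.ofReal (1 - (1 / 2) ^ (j + 1)) ^ n := by
  have : {l : Fin n → ℕ | ∀ i, l i ≠ j} = Set.pi Set.univ fun _ => {j}ᶜ := by
    ext l
    simp
  rw [this, Measure.pi_pi]
  simp [geo_compl]

lemma good_le (n J : ℕ) : ((Measure.pi fun _ : Fin n => geo).prod (pim (Fin n) (1 / 2)))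
    (good n J) ≤ J * ENNReal.ofReal (1 - (1 / 2) ^ J) ^ n + ENNReal.ofReal ((3 / 4) ^ J) := by
  have hP := pim_prob (ι := Fin n) (q := 1 / 2) (by norm_num) (by norm_num)
  set B : Set (Fin n → ℕ) := ⋃ j ∈ Finset.range J, {l | ∀ i, l i ≠ j} with hB
  have hBle : (Measure.pi fun _ : Fin n => geo) B ≤ J * ENNReal.ofReal (1 - (1 / 2) ^ J) ^ n := by
    refine (measure_biUnion_finset_le _ _).trans ?_
    calc ∑ j ∈ Finset.range J, (Measure.pi fun _ : Fin n => geo) {l | ∀ i, l i ≠ j}
        ≤ ∑ j ∈ Finset.range J, ENNReal.ofReal (1 - (1 / 2) ^ J) ^ n := by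
          refine Finset.sum_le_sum fun j hj => ?_
          rw [miss]
          refine pow_le_pow_left' (ENNReal.ofReal_le_ofReal ?_) n
          have h1 : (1 / 2 : ℝ) ^ J ≤ (1 / 2) ^ (j + 1) :=
            pow_le_pow_of_le_one (by norm_num) (by norm_num) (Finset.mem_range.1 hj)
          linarith
      _ = _ := by simp
  have hsub : good n J ⊆ (B ×ˢ Set.univ) ∪ (good n J ∩ (Bᶜ ×ˢ Set.univ)) := by
    intro z hz
    by_cases hzB : z.1 ∈ B
    · exact Or.inl ⟨hzB, trivial⟩
    · exact Or.inr ⟨hz, hzB, trivial⟩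
  refine (measure_mono hsub).trans ((measure_union_le _ _).trans ?_)
  refine add_le_add ?_ ?_
  · rw [Measure.prod_prod, measure_univ, mul_one]
    exact hBle
  · rw [Measure.prod_apply (MeasurableSet.of_discrete)]
    calc ∫⁻ l, (pim (Fin n) (1 / 2)) (Prod.mk l ⁻¹' (good n J ∩ (Bᶜ ×ˢ Set.univ)))
          ∂(Measure.pi fun _ : Fin n => geo)
        ≤ ∫⁻ _l, ENNReal.ofReal ((3 / 4) ^ J) ∂(Measure.pi fun _ : Fin n => geo) := by
          refine lintegral_mono fun l => ?_
          by_cases hl : l ∈ B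
          · have : Prod.mk l ⁻¹' (good n J ∩ (Bᶜ ×ˢ Set.univ)) = ∅ := by
              ext s
              simp [hl]
            rw [this]
            simp
          · refine (measure_mono ?_).trans (all_groups l J ?_)
            · intro s hs
              exact hs.1
            · intro j hj
              by_contra hcon
              push Not at hcon
              apply hl
              rw [hB]
              simp only [Set.mem_iUnion, Set.mem_ofPred_eq, Finset.mem_range]
              exact ⟨j, hj, hcon⟩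
      _ = ENNReal.ofReal ((3 / 4) ^ J) := by
          rw [lintegral_const, measure_univ, mul_one]

lemma probHam_le {n : ℕ} (hn : n ≠ 1) (J : ℕ) : pen.probHam om n ≤
    J * ENNReal.ofReal (1 - (1 / 2) ^ J) ^ n + ENNReal.ofReal ((3 / 4) ^ J) := by
  have hmp := (mp_split n).comp (mp_fst n)
  have h1 : {z : (Fin n → Om) × (Sym2 (Fin n) → I) | (pen.sample n z.1 z.2).IsHamiltonian} ⊆
      ((MeasurableEquiv.arrowProdEquivProdArrow ℕ Bool (Fin n) ∘
        fun (x : Fin n → Om) i => (x i).1) ⁻¹' (good n J)) ×ˢ Set.univ := by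
    intro z hz
    refine ⟨?_, trivial⟩
    intro j _
    exact not_ham hn z.1 z.2 hz j
  unfold Graphon.probHam Graphon.sampleLaw
  refine (measure_mono h1).trans ?_
  rw [Measure.prod_prod, measure_univ, mul_one,
    hmp.measure_preimage (MeasurableSet.of_discrete).nullMeasurableSet]
  exact good_le n J

lemma probHam_tendsto : Tendsto (fun n => pen.probHam om n) atTop (𝓝 0) := by
  rw [ENNReal.tendsto_nhds_zero]
  intro ε hε
  -- choose `J`
  have hJ : Tendsto (fun J : ℕ => ENNReal.ofReal ((3 / 4) ^ J)) atTop (𝓝 0) := by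
    have := ENNReal.tendsto_ofReal (tendsto_pow_atTop_nhds_zero_of_lt_one
      (r := (3 / 4 : ℝ)) (by norm_num) (by norm_num))
    rwa [ENNReal.ofReal_zero] at this
  obtain ⟨J, hJ1⟩ := ((ENNReal.tendsto_nhds_zero.1 hJ) (ε / 2) (ENNReal.half_pos hε.ne')).exists
  have hr : ENNReal.ofReal (1 - (1 / 2) ^ J) < 1 := by
    rw [← ENNReal.ofReal_one]
    refine (ENNReal.ofReal_lt_ofReal_iff one_pos).2 ?_
    have : (0 : ℝ) < (1 / 2) ^ J := by positivity
    linarith
  have hn : Tendsto (fun n : ℕ => (J : ℝ≥0∞) * ENNReal.ofReal (1 - (1 / 2) ^ J) ^ n) atTop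
      (𝓝 0) := by
    have h1 := ENNReal.tendsto_pow_atTop_nhds_zero_of_lt_one hr
    have h2 := ENNReal.Tendsto.const_mul (a := (J : ℝ≥0∞)) h1
      (Or.inr (ENNReal.natCast_ne_top J))
    rwa [mul_zero] at h2
  have hn2 := (ENNReal.tendsto_nhds_zero.1 hn) (ε / 2) (ENNReal.half_pos hε.ne')
  filter_upwards [hn2, eventually_ge_atTop 2] with n h1 h2
  refine (probHam_le (by omega) J).trans ?_
  calc _ ≤ ε / 2 + ε / 2 := add_le_add h1 hJ1
    _ = ε := ENNReal.add_halves ε

/-- **Disproof of Q1.**  There is a graphon `W` on an atomless standard probability space which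
satisfies none of the conditions (i) (not connected), (ii) (`μ(D_W(α))/α → ∞`), (iii) (narrow
peninsula) and (iv) (balanced bipartite), and for which the probability that `𝔾(n, W)` is
Hamiltonian tends to `0`. -/
theorem result : ∃ (Ω : Type) (_ : MeasurableSpace Ω) (_ : StandardBorelSpace Ω) (μ : Measure Ω)
    (_ : IsProbabilityMeasure μ) (_ : NullSingletonClass μ) (G : Graphon Ω),
    ¬ (¬ G.IsConnected μ) ∧ ¬ G.ManyLowDeg μ ∧ ¬ G.HasNarrowPeninsula μ ∧
      ¬ G.IsBalancedBipartite μ ∧ Tendsto (fun n => G.probHam μ n) atTop (𝓝 0) :=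
  ⟨Om, inferInstance, inferInstance, om, inferInstance, inferInstance, pen,
    not_not.2 pen_connected, pen_not_manyLow, pen_not_narrow, pen_not_bipartite, probHam_tendsto⟩

end Pool.Agent.Results.MP_e2d9cc_pr.ExactPeninsulas
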